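import Mathlib
import Pool.Agent.Run7.h964.CS.Q

/-!
# Where the non-hyperbolic maps accumulate on the constant stratum of the boundary

The rational maps of degree `d` are the pairs of polynomials of degree at most `d`, that is, of binary
forms of degree `d`, without common zero on the sphere. The most degenerate boundary pairs are the
constants `(b₁ H, b₂ H)` with a form `H ≠ 0` of degree `d` and `b ≠ 0` in `ℂ²`: the value is the point
`b` except at the zeros of `H`. It is shown that such a pair is a limit of non-hyperbolic rational maps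
of degree `d` if and only if `H b = 0` or `H` has a multiple zero, and that it is a point of density of
the hyperbolic maps, with the rate `r ^ (2 / d)`, whenever `H b ≠ 0`. The same is proved in the orbit of
every rational map `f` of degree `d` under the group of Möbius maps `N`, acting by `N ∘ f`: the matrices
of rank one which are limits of matrices `N` such that `N ∘ f` is not hyperbolic are exactly the
matrices which collapse the sphere without the point `q` to the point `p`, with `f p = q` or `q` a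
critical value of `f`.

Proof. If `H b ≠ 0` then near `(b₁ H, b₂ H)` a disc around `b` is mapped well inside itself, and only
points whose image is in a neighbourhood of size `r ^ (1 / k)` of a zero of `H` of multiplicity `k`
may fail to enter this disc in two steps. If the zeros of `H` are simple then the critical values avoid
these neighbourhoods. In general one moves the critical values by the parabolic matrices
`w ↦ w + κ (b ∧ w) b` (Fubini). Conversely, if `f p = q` and `f` is locally injective at `p` then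
there are invertible matrices `N`, as close as we like to the given matrix of rank one, such that
`N ∘ f` has a fixed point of multiplier one at `p` to which the orbit of a critical point converges;
and if `q = f c` is a critical value then there are such `N` for which the critical point `c` is
mapped in two steps to a repelling fixed point of `N ∘ f` near `c`.

The library on rational maps of the sphere in homogeneous coordinates is from the starting files
(`Pool/Agent/H790R3/RB`, `Pool/Agent/R239/Fat/T1`).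
-/

set_option autoImplicit false

open MeasureTheory Polynomial

namespace Pool.Agent.Results.MP_8f2e1c_an.ConstantStratum

/-- `f` is the self-map of the Riemann sphere given by the rational function `P / Q` of degree `d`,
in lowest terms. -/
def IsRational (d : ℕ) (P Q : Polynomial ℂ) (f : OnePoint ℂ → OnePoint ℂ) : Prop :=
  IsCoprime P Q ∧ max P.natDegree Q.natDegree = d ∧ Continuous f ∧
    ∀ z : ℂ, Q.eval z ≠ 0 → f (OnePoint.some z) = OnePoint.some (P.eval z / Q.eval z)

/-- `c` is a critical point of `f`: `f` is not locally injective at `c`. -/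
def Critical (f : OnePoint ℂ → OnePoint ℂ) (c : OnePoint ℂ) : Prop :=
  ¬ ∃ U ∈ nhds c, Set.InjOn f U

/-- Every critical point has an orbit converging to an attracting periodic cycle. This is word for
word the condition of the frozen statement `S05373`. -/
def Hyperbolic (f : OnePoint ℂ → OnePoint ℂ) : Prop :=
  ∀ c : OnePoint ℂ, (¬ ∃ U ∈ nhds c, Set.InjOn f U) →
    ∃ z : OnePoint ℂ, ∃ n : ℕ, 0 < n ∧ f^[n] z = z ∧
      (∃ U ∈ nhds z, ∀ w ∈ U,
        Filter.Tendsto (fun k : ℕ => f^[n * k] w) Filter.atTop (nhds z)) ∧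
      Filter.Tendsto (fun k : ℕ => f^[n * k] c) Filter.atTop (nhds z)

/-- The coefficients of a pair of polynomials of degree at most `d`. -/
abbrev Coeffs (d : ℕ) : Type := Fin 2 × Fin (d + 1) → ℂ

/-- The two polynomials with the given coefficients. -/
noncomputable def poly {d : ℕ} (x : Coeffs d) (i : Fin 2) : Polynomial ℂ :=
  ∑ j : Fin (d + 1), Polynomial.monomial (j : ℕ) (x (i, j))

/-- The coefficients of the rational maps of degree `d` which are not hyperbolic. -/
def NonHyp (d : ℕ) : Set (Coeffs d) :=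
  {x | ∃ f, IsRational d (poly x 0) (poly x 1) f ∧ ¬ Hyperbolic f}

/-- The binary form `∑ H_j u^j v^(d-j)` at `p = (u, v)`. -/
noncomputable def form {d : ℕ} (H : Fin (d + 1) → ℂ) (p : ℂ × ℂ) : ℂ :=
  ∑ j : Fin (d + 1), H j * (p.1 ^ (j : ℕ) * p.2 ^ (d - (j : ℕ)))

/-- The partial derivative of the form with respect to `u`. -/
noncomputable def formU {d : ℕ} (H : Fin (d + 1) → ℂ) (p : ℂ × ℂ) : ℂ :=
  ∑ j : Fin (d + 1), H j * (((j : ℕ) : ℂ) * p.1 ^ ((j : ℕ) - 1) * p.2 ^ (d - (j : ℕ)))

/-- The partial derivative of the form with respect to `v`. -/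
noncomputable def formV {d : ℕ} (H : Fin (d + 1) → ℂ) (p : ℂ × ℂ) : ℂ :=
  ∑ j : Fin (d + 1), H j * (((d - (j : ℕ) : ℕ) : ℂ) * p.1 ^ (j : ℕ) * p.2 ^ (d - (j : ℕ) - 1))

/-- The pair `(b₁ H, b₂ H)`. -/
def constPair {d : ℕ} (b : ℂ × ℂ) (H : Fin (d + 1) → ℂ) : Coeffs d :=
  fun r => (if r.1 = 0 then b.1 else b.2) * H r.2

/-- The point `u / v` of the sphere with the homogeneous coordinates `p = (u, v)`. -/
noncomputable def point (p : ℂ × ℂ) : OnePoint ℂ :=
  open Classical in if p.2 = 0 then OnePoint.infty else OnePoint.some (p.1 / p.2)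

/-- A complex `2 × 2` matrix. -/
abbrev Mat : Type := Fin 2 × Fin 2 → ℂ

/-- The determinant. -/
def det (N : Mat) : ℂ := N (0, 0) * N (1, 1) - N (0, 1) * N (1, 0)

/-- The Moebius map `z ↦ (N₀₀ z + N₀₁) / (N₁₀ z + N₁₁)`. -/
noncomputable def moebius (N : Mat) : OnePoint ℂ → OnePoint ℂ
  | none => if N (1, 0) = 0 then OnePoint.infty else OnePoint.some (N (0, 0) / N (1, 0))
  | some z => if N (1, 0) * z + N (1, 1) = 0 then OnePoint.infty
      else OnePoint.some ((N (0, 0) * z + N (0, 1)) / (N (1, 0) * z + N (1, 1)))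

/-- The matrix of the linear map `w ↦ (a₁ w₂ - a₂ w₁) b`. It has rank one and collapses the sphere
without the point `a` to the point `b`. -/
def collapse (a b : ℂ × ℂ) : Mat :=
  fun r => (if r.1 = 0 then b.1 else b.2) * (if r.2 = 0 then -a.2 else a.1)

/-- The matrices `N` such that the rational map `N ∘ f` is not hyperbolic. -/
def BadMat (f : OnePoint ℂ → OnePoint ℂ) : Set Mat :=
  {N | det N ≠ 0 ∧ ¬ Hyperbolic (moebius N ∘ f)}

open Pool.Agent.H790R3.RB Run7.h964.CS Run7.h964.FM

theorem nonHyp_eq {d : ℕ} (hd : 1 ≤ d) :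
    NonHyp d = {x : CV d | ND x ∧ ¬ HypTop (sp x)} := by
  ext x
  constructor
  · rintro ⟨f, hf, hn⟩
    obtain ⟨y, hy, hP, hQ, hu⟩ := (PQ SP d hd).2 (poly x 0) (poly x 1) hf.1 hf.2.1
    have hyx : y = x := by
      have h2 : ∀ i : Fin 2, i ≠ 0 → i = 1 := by decide
      funext r
      obtain ⟨i, j⟩ := r
      rw [← PQ.pol_coeff y i j, ← PQ.pol_coeff x i j]
      by_cases hi : i = 0
      · subst hi; rw [hP]; rfl
      · rw [h2 i hi, hQ]; rfl
    subst hyx
    refine ⟨hy, ?_⟩
    rw [← hu f hf.2.2.1 hf.2.2.2]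
    exact hn
  · rintro ⟨hx, hn⟩
    obtain ⟨h1, h2⟩ := PQ.part1 hd x hx
    exact ⟨sp x, ⟨h1, h2, SP.sp_cont hx, fun z hz => PQ.sp_eval x z hz⟩, hn⟩

open Pool.Agent.R239.Fat in
theorem moebius_eq {N : Mat} (h : det N ≠ 0) :
    moebius N = mob (N (0, 0)) (N (0, 1)) (N (1, 0)) (N (1, 1)) := by
  have h' : N (0, 0) * N (1, 1) - N (0, 1) * N (1, 0) ≠ 0 := h
  funext x
  induction x using OnePoint.rec with
  | infty =>
    rw [mob_inf h']
    rfl
  | coe z =>
    show (if N (1, 0) * z + N (1, 1) = 0 then OnePoint.infty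
      else OnePoint.some ((N (0, 0) * z + N (0, 1)) / (N (1, 0) * z + N (1, 1)))) = _
    split_ifs with h1
    · rw [mob_coe_inf h' h1]
    · rw [mob_coe h' h1]

open Pool.Agent.R239.Fat in
theorem moebius_comp {d : ℕ} {x : CV d} (hx : ND x) {N : Mat} (h : det N ≠ 0) :
    moebius N ∘ sp x = sp (cm (mt N) x) := by
  have h' : N (0, 0) * N (1, 1) - N (0, 1) * N (1, 0) ≠ 0 := h
  funext z
  obtain ⟨h1, h2⟩ := SP.pr_hc z
  have h3 : hF x (hc z) ≠ 0 := fun h0 => h2 (hx _ h0)
  show moebius N (pr (hF x (hc z))) = pr (hF (cm (mt N) x) (hc z))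
  rw [moebius_eq h, mob_pr h' h3, hF_cm]
  rfl

/-- The set of bad matrices in the coordinates of the library. -/
theorem badMat_eq {d : ℕ} {x : CV d} (hx : ND x) :
    BadMat (sp x) = {y : CV 1 | mt y ∈ NH x} := by
  ext N
  show (det N ≠ 0 ∧ ¬ Hyperbolic (moebius N ∘ sp x)) ↔
    (dt (mt N) ≠ 0 ∧ ¬ HypTop (sp (cm (mt N) x)))
  have e : dt (mt N) = det N := rfl
  rw [e]
  constructor
  · rintro ⟨h1, h2⟩
    rw [moebius_comp hx h1] at h2
    exact ⟨h1, h2⟩
  · rintro ⟨h1, h2⟩
    refine ⟨h1, ?_⟩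
    rw [moebius_comp hx h1]
    exact h2

theorem collapse_eq (a b : ℂ × ℂ) : collapse a b = vm (rk a b) := by
  funext r
  obtain ⟨i, j⟩ := r
  fin_cases i <;> fin_cases j <;> simp [collapse, vm, rk]

theorem closure_vm (S : Set ((ℂ × ℂ) × (ℂ × ℂ))) (m : (ℂ × ℂ) × (ℂ × ℂ)) :
    vm m ∈ closure {y : CV 1 | mt y ∈ S} ↔ m ∈ closure S := by
  constructor
  · intro h
    have h1 := map_mem_closure mt_cont h (t := S) fun y hy => hy
    rwa [mt_vm] at h1
  · intro h
    refine map_mem_closure vm_cont h fun m hm => ?_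
    show mt (vm m) ∈ S
    rwa [mt_vm]

theorem point_eq (p : ℂ × ℂ) : point p = pr p := rfl

theorem sp_eq_iff {d : ℕ} {x : CV d} (hx : ND x) {a p : ℂ × ℂ} (ha : a ≠ 0) (hp : p ≠ 0) :
    sp x (pr p) = pr a ↔ cx a (hF x p) = 0 := by
  rw [SP.sp_pr hx hp, SP.pr_eq_iff (fun h0 => hp (hx _ h0)) ha, cx_swap, neg_eq_zero]
  exact Iff.rfl

theorem critical_value_iff {d : ℕ} (hd : 2 ≤ d) {x : CV d} (hx : ND x) {a : ℂ × ℂ} (ha : a ≠ 0) :
    (∃ c, Critical (sp x) c ∧ sp x c = pr a) ↔
      ∃ c : ℂ × ℂ, c ≠ 0 ∧ wr x c = 0 ∧ cx a (hF x c) = 0 := by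
  constructor
  · rintro ⟨c, h1, h2⟩
    obtain ⟨hc1, hc2⟩ := SP.pr_hc c
    refine ⟨hc c, hc2, ?_, ?_⟩
    · by_contra hw
      exact h1 (hc1 ▸ INJL SP WR d x _ hd hx hc2 hw)
    · rw [← sp_eq_iff hx ha hc2, hc1]
      exact h2
  · rintro ⟨c, h1, h2, h3⟩
    refine ⟨pr c, crit_top hd hx h1 h2, ?_⟩
    rw [sp_eq_iff hx ha h1]
    exact h3

theorem exists_collapse {N : Mat} (hN : N ≠ 0) (h : det N = 0) :
    ∃ a b : ℂ × ℂ, a ≠ 0 ∧ b ≠ 0 ∧ N = collapse a b := by
  have h' : N (0, 0) * N (1, 1) = N (0, 1) * N (1, 0) := sub_eq_zero.1 h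
  have key : ∀ a b : ℂ × ℂ, N (0, 0) = b.1 * -a.2 → N (0, 1) = b.1 * a.1 →
      N (1, 0) = b.2 * -a.2 → N (1, 1) = b.2 * a.1 → N = collapse a b := by
    intro a b h1 h2 h3 h4
    funext r
    obtain ⟨i, j⟩ := r
    fin_cases i <;> fin_cases j <;> simp [collapse, h1, h2, h3, h4]
  by_cases h0 : N (0, 0) = 0
  · by_cases h1 : N (0, 1) = 0
    · refine ⟨(N (1, 1), -N (1, 0)), (0, 1), fun ha => hN ?_, fun hb => ?_,
        key _ _ (by simp [h0]) (by simp [h1]) (by simp) (by simp)⟩
      · have e1 : N (1, 1) = 0 := congrArg Prod.fst ha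
        have e2 : -N (1, 0) = 0 := congrArg Prod.snd ha
        funext r
        obtain ⟨i, j⟩ := r
        fin_cases i <;> fin_cases j
        · exact h0
        · exact h1
        · exact neg_eq_zero.1 e2
        · exact e1
      · exact one_ne_zero (congrArg Prod.snd hb)
    · have h2 : N (1, 0) = 0 := by
        rw [h0, zero_mul] at h'
        exact (mul_eq_zero.1 h'.symm).resolve_left h1
      refine ⟨(N (0, 1), 0), (1, N (1, 1) / N (0, 1)), fun ha => h1 (congrArg Prod.fst ha),
        fun hb => one_ne_zero (congrArg Prod.fst hb),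
        key _ _ (by simp [h0]) (by simp) (by simp [h2]) ?_⟩
      show N (1, 1) = N (1, 1) / N (0, 1) * N (0, 1)
      exact (div_mul_cancel₀ _ h1).symm
  · refine ⟨(N (0, 1), -N (0, 0)), (1, N (1, 0) / N (0, 0)), fun ha => h0 ?_,
      fun hb => one_ne_zero (congrArg Prod.fst hb), key _ _ (by simp) (by simp) ?_ ?_⟩
    · exact neg_eq_zero.1 (congrArg Prod.snd ha)
    · show N (1, 0) = N (1, 0) / N (0, 0) * -(-N (0, 0))
      rw [neg_neg, div_mul_cancel₀ _ h0]
    · show N (1, 1) = N (1, 0) / N (0, 0) * N (0, 1)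
      rw [eq_comm, div_mul_eq_mul_div, div_eq_iff h0]
      linear_combination -h'

/-- **The non-hyperbolic maps near the constant pairs.** Let `d ≥ 2`.

(1) For all forms `H ≠ 0` of degree `d` and all `b ≠ 0`: the pair `(b₁ H, b₂ H)` is a limit of
non-hyperbolic rational maps of degree `d` if and only if `H b = 0` or `H` has a multiple zero.

(2) If `H b ≠ 0` then, for a constant `C` which depends on `H` and `b`, the proportion of the
non-hyperbolic maps of degree `d` in the ball of radius `r ≤ 1` of `ℂ^(2d+2)` around `(b₁ H, b₂ H)` is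
at most `C r ^ (2 / d)`.

(3) Let `f` be a rational map of degree `d` and let `N₀ = collapse a b` be the matrix of rank one
which collapses the sphere without the point `a` to the point `b`. Then `N₀` is a limit of
invertible matrices `N` such that `N ∘ f` is not hyperbolic if and only if `f b = a` or `a` is a
critical value of `f`. (All `N₀ ≠ 0` with `det N₀ = 0` are of this form.)

(4) If `f b ≠ a` then the proportion of those matrices in the ball of radius `r ≤ 1` around
`N₀` is at most `C r ^ (2 / d)`, for a constant `C` which depends on `f`, `a` and `b`. -/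
theorem result (d : ℕ) (hd : 2 ≤ d) :
    (∀ (b : ℂ × ℂ) (H : Fin (d + 1) → ℂ), b ≠ 0 → H ≠ 0 →
      (constPair b H ∈ closure (NonHyp d) ↔
        form H b = 0 ∨ ∃ c : ℂ × ℂ, c ≠ 0 ∧ formU H c = 0 ∧ formV H c = 0) ∧
      (form H b ≠ 0 → ∃ C : ℝ, 0 < C ∧ ∀ r : ℝ, 0 < r → r ≤ 1 →
        volume (NonHyp d ∩ Metric.closedBall (constPair b H) r) ≤
          ENNReal.ofReal (C * r ^ ((2 : ℝ) / d)) * volume (Metric.closedBall (constPair b H) r))) ∧
    (∀ N : Mat, N ≠ 0 → det N = 0 → ∃ a b : ℂ × ℂ, a ≠ 0 ∧ b ≠ 0 ∧ N = collapse a b) ∧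
    (∀ (P Q : ℂ[X]) (f : OnePoint ℂ → OnePoint ℂ), IsRational d P Q f →
      ∀ a b : ℂ × ℂ, a ≠ 0 → b ≠ 0 →
      (collapse a b ∈ closure (BadMat f) ↔
        f (point b) = point a ∨ ∃ c, Critical f c ∧ f c = point a) ∧
      (f (point b) ≠ point a → ∃ C : ℝ, 0 < C ∧ ∀ r : ℝ, 0 < r → r ≤ 1 →
        volume (BadMat f ∩ Metric.closedBall (collapse a b) r) ≤
          ENNReal.ofReal (C * r ^ ((2 : ℝ) / d)) * volume (Metric.closedBall (collapse a b) r))) := by
  refine ⟨fun b H hb hH => ⟨?_, fun h => ?_⟩, fun N hN h => exists_collapse hN h,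
    fun P Q f hf a b ha hb => ?_⟩
  · rw [nonHyp_eq (by omega)]
    exact stratum_iff hd hb hH
  · rw [nonHyp_eq (by omega)]
    exact density hd hb h
  · obtain ⟨x, hx, -, -, hu⟩ := (PQ SP d (by omega)).2 P Q hf.1 hf.2.1
    obtain rfl := hu f hf.2.2.1 hf.2.2.2
    rw [badMat_eq hx, collapse_eq, point_eq, point_eq]
    refine ⟨?_, fun h => ?_⟩
    · rw [closure_vm, nh_iff hd hx ha hb, sp_eq_iff hx ha hb, critical_value_iff hd hx ha]
    · rw [Ne, sp_eq_iff hx ha hb] at h
      obtain ⟨C, hC, hC2⟩ := density_orbit hd (x := x) hb h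
      refine ⟨C, hC, fun r hr hr1 => le_trans (measure_mono ?_) (hC2 r hr hr1)⟩
      rintro y ⟨hy1, hy2⟩
      exact ⟨⟨nd_cm hy1.1 hx, hy1.2⟩, hy2⟩

end Pool.Agent.Results.MP_8f2e1c_an.ConstantStratum
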