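import Mathlib
import Pool.Agent.Run7.h904.U16Main

/-!
# Geometrically finite rational maps are density points of hyperbolicity

Let `f = P / Q` be a rational map of degree `d ≥ 2` of the Riemann sphere each of whose critical
points is attracted by a sink, lies in the basin of a parabolic cycle (a cycle whose multiplier is
a root of unity; any multiplier, any number of petals), is mapped onto a repelling cycle or is mapped
onto a parabolic cycle, and suppose that `f` has a sink or a parabolic basin. (By well known theorems,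
which are not used and not proved here, these are the geometrically finite rational maps with
non-empty Fatou set.)

Then there are countably many complex hyperplanes (kernels of non-zero linear functionals) of the
space `ℂ ^ (2 d + 2)` of pairs of coefficient vectors such that in every linear family
`v ↦ (P, Q) + J (v)`, `J : ℂ ^ ι → ℂ ^ (2 d + 2)` linear, whose directions `J (v)` do not all lie in
one of these hyperplanes, the map `f` is a Lebesgue density point of hyperbolicity: the proportion of
the `v` in the polydisc `|v i| ≤ r` for which `(P, Q) + J (v)` is not a hyperbolic rational map of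
degree `d` tends to `0` as `r → 0`.

For `J` the identity: `f` is a Lebesgue density point of the set of hyperbolic rational maps of degree
`d`. For `ι` a point: the same holds in the complex lines through `f` in all directions outside the
countably many hyperplanes.

The ingredients are
* transversality: the multipliers and the displacements of the indifferent cycles (starting files,
  `W63/REQ2SURL`, `W378`), and the critical relations `f^N (v) = f^m (v)` (new, `R2Push`, `R2Inv`,
  `R2Tr`: a relation which is not transversal gives an integrable quadratic differential with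
  `f_* q = q`, hence a finite invariant measure, absolutely continuous with respect to the area);
* the orbits near a parabolic point whose multiplier is perturbed to `1 + μ`, `|Re μ| ≥ ε |μ|`, by a
  perturbation of the size of `μ` (`PLoc2`), and near a repelling cycle (`R3Rep`);
* the unfolding of a fixed point of multiplier one and multiplicity `k + 1` in a direction in which
  the return map moves with non-zero speed (new, `S1Tau` - `S11App`): after rescaling the orbits
  follow the real flow of `γ (1 - v ^ (k + 1)) d / d v`, and outside finitely many real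
  hypersurfaces of directions every orbit entering through a petal ends at one of the `k + 1`
  perturbed fixed points;
* the critical orbits which are mapped onto a parabolic cycle (new, `U1Cap` - `U11Seq`): if the
  multiplier of the cycle is not one, then after a perturbation of size `t` the critical orbit
  starts at the distance `t` from the cycle, which has become repelling for half of the directions, and
  makes about `(log (1 / t)) / t` steps before it comes to the scale `t ^ (1 / k)`; it is captured
  unless `t` is in an exceptional set, which is small in the logarithmic scale for almost every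
  direction (`U3Main`, `U6LandA`); if the multiplier is one then it is captured in almost every
  direction (`U7LandB`); `U8Dens` integrates this over the rays through `f`;
* the set of points which are neither attracted by a sink nor by a parabolic cycle has zero area
  (`Z1Cov` - `Z9Zero`, `U12Zero`: inverse branches, Koebe distortion, and a continuation argument which
  excludes rotation domains and wandering domains for these maps).
-/

set_option autoImplicit false

open MeasureTheory Filter Metric Topology Polynomial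
open scoped OnePoint

namespace Pool.Agent.Results.MP_8f2e1c_an.GeometricallyFiniteMaps

/-- `f` is the rational map `P / Q` on the Riemann sphere. -/
def IsRationalMap (P Q : ℂ[X]) (f : OnePoint ℂ → OnePoint ℂ) : Prop :=
  Continuous f ∧ ∀ z : ℂ, Q.eval z ≠ 0 →
    f (OnePoint.some z) = OnePoint.some (P.eval z / Q.eval z)

/-- `a` is a point of an attracting cycle of `f` whose period divides `n`: `f^n` fixes `a` and the
iterates of `f^n` converge to `a` uniformly on a neighbourhood of `a`. -/
def IsSink (f : OnePoint ℂ → OnePoint ℂ) (n : ℕ) (a : OnePoint ℂ) : Prop :=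
  0 < n ∧ f^[n] a = a ∧
    ∃ U ∈ nhds a, ∀ V ∈ nhds a, ∀ᶠ k : ℕ in Filter.atTop, ∀ w ∈ U, f^[n * k] w ∈ V

/-- `z` is in the basin of an attracting cycle of `f`. -/
def Attracted (f : OnePoint ℂ → OnePoint ℂ) (z : OnePoint ℂ) : Prop :=
  ∃ (n : ℕ) (a : OnePoint ℂ), IsSink f n a ∧
    Filter.Tendsto (fun k : ℕ => f^[n * k] z) Filter.atTop (nhds a)

/-- A local coordinate at the point `a` of the sphere: `a + w` if `a` is finite and `1 / w` if `a` is
the point at infinity. -/
noncomputable def chart (a : OnePoint ℂ) (w : ℂ) : OnePoint ℂ :=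
  match a with
  | none => open Classical in if w = 0 then ∞ else ((w⁻¹ : ℂ) : OnePoint ℂ)
  | some a => ((a + w : ℂ) : OnePoint ℂ)

/-- The point `z` lies in the basin of a parabolic cycle: `a` is a periodic point of exact period `p`,
`f^p` is the map `g` in the local coordinate at `a`, the multiplier `g' (0)` is a `q`-th root of
unity, the points `f^(p q k) (z)` converge to `a`, and `z` is not mapped onto `a`. -/
def ParabolicBasin (f : OnePoint ℂ → OnePoint ℂ) (z : OnePoint ℂ) : Prop :=
  ∃ (p q : ℕ) (a : OnePoint ℂ) (lam : ℂ) (g : ℂ → ℂ), 0 < p ∧ 0 < q ∧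
    (∀ m : ℕ, 0 < m → m < p → f^[m] a ≠ a) ∧ g 0 = 0 ∧ HasDerivAt g lam 0 ∧
    (∀ᶠ w in 𝓝 (0 : ℂ), f^[p] (chart a w) = chart a (g w)) ∧ lam ^ q = 1 ∧
    Tendsto (fun k : ℕ => f^[p * q * k] z) atTop (𝓝 a) ∧ ∀ k : ℕ, f^[k] z ≠ a

/-- The point `z` is mapped onto a repelling cycle: `f^p` is the map `g` in the local coordinate at
the point `b = f^m (z)`, `g (0) = 0` and `|g' (0)| > 1`. -/
def OntoRepelling (f : OnePoint ℂ → OnePoint ℂ) (z : OnePoint ℂ) : Prop :=
  ∃ (m p : ℕ) (lam : ℂ) (g : ℂ → ℂ), 0 < p ∧ 1 < ‖lam‖ ∧ g 0 = 0 ∧ HasDerivAt g lam 0 ∧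
    ∀ᶠ w in 𝓝 (0 : ℂ), f^[p] (chart (f^[m] z) w) = chart (f^[m] z) (g w)

/-- The point `z` is mapped onto a parabolic cycle: the point `a = f^m (z)` is periodic of exact
period `p`, `f^p` is the map `g` in the local coordinate at `a`, and the multiplier `g' (0)` is a
`q`-th root of unity. -/
def OntoParabolic (f : OnePoint ℂ → OnePoint ℂ) (z : OnePoint ℂ) : Prop :=
  ∃ (m p q : ℕ) (lam : ℂ) (g : ℂ → ℂ), 0 < p ∧ 0 < q ∧
    (∀ j : ℕ, 0 < j → j < p → f^[j] (f^[m] z) ≠ f^[m] z) ∧ g 0 = 0 ∧ HasDerivAt g lam 0 ∧
    (∀ᶠ w in 𝓝 (0 : ℂ), f^[p] (chart (f^[m] z) w) = chart (f^[m] z) (g w)) ∧ lam ^ q = 1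

/-- `P / Q` is a rational map of degree `d` and it is hyperbolic: all critical points are in basins
of attracting cycles. -/
def Hyperbolic (d : ℕ) (P Q : ℂ[X]) : Prop :=
  IsCoprime P Q ∧ max P.natDegree Q.natDegree = d ∧ ∃ f : OnePoint ℂ → OnePoint ℂ,
    IsRationalMap P Q f ∧ ∀ c : OnePoint ℂ, (¬ ∃ U ∈ nhds c, Set.InjOn f U) → Attracted f c

/-- The polynomial with the given coefficients (of the degrees `0, …, d`): the numerator for `i = 0`,
the denominator for `i = 1`. -/
noncomputable def poly {d : ℕ} (V : Fin 2 × Fin (d + 1) → ℂ) (i : Fin 2) : ℂ[X] :=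
  ∑ j : Fin (d + 1), monomial (j : ℕ) (V (i, j))

open Run7.h904.RF Pool.Agent.H790R3.RB in
theorem result (d : ℕ) (hd : 2 ≤ d) (P Q : ℂ[X]) (hPQ : IsCoprime P Q)
    (hdeg : max P.natDegree Q.natDegree = d) (f : OnePoint ℂ → OnePoint ℂ)
    (hf : IsRationalMap P Q f)
    (hc : ∀ c : OnePoint ℂ, (¬ ∃ U ∈ nhds c, Set.InjOn f U) →
      Attracted f c ∨ ParabolicBasin f c ∨ OntoRepelling f c ∨ OntoParabolic f c)
    (hb : ∃ z : OnePoint ℂ, Attracted f z ∨ ParabolicBasin f z) :
    ∃ S : Set ((Fin 2 × Fin (d + 1) → ℂ) →ₗ[ℂ] ℂ), S.Countable ∧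
      (0 : (Fin 2 × Fin (d + 1) → ℂ) →ₗ[ℂ] ℂ) ∉ S ∧
      ∀ (ι : Type) [Fintype ι] (J : (ι → ℂ) →ₗ[ℂ] (Fin 2 × Fin (d + 1) → ℂ)),
        (∀ L ∈ S, L.comp J ≠ 0) →
        Tendsto (fun r : ℝ => volume {v : ι → ℂ | (∀ i, ‖v i‖ ≤ r) ∧
          ¬ Hyperbolic d (P + poly (J v) 0) (Q + poly (J v) 1)} /
          volume {v : ι → ℂ | ∀ i, ‖v i‖ ≤ r}) (𝓝[>] 0) (𝓝 0) := by
  have hd1 : 1 ≤ d := by omega
  obtain ⟨h1, h2⟩ := PQ SP d hd1
  obtain ⟨x₀, hnd, hx0, hx1, hfe⟩ := h2 P Q hPQ hdeg
  have hfx : f = sp x₀ := hfe f hf.1 hf.2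
  subst hfx
  have hHy : ∀ a : CV d, HyR a → Hyperbolic d (poly a 0) (poly a 1) := by
    rintro a ⟨ha1, ha2⟩
    obtain ⟨g1, g2, -, -, g5⟩ := h1 a ha1
    exact ⟨g1, g2, sp a, ⟨(SP d a hd1 ha1).1, g5⟩, fun c hcc =>
      ha2 c (crt_of_notinj hd a ha1 c hcc)⟩
  have hpb : ∀ z, ParabolicBasin (sp x₀) z → ∃ a, ParB (sp x₀) z a := by
    rintro z ⟨p, q, a, lam, g, hp, hq, hmin, g0, gd, ge, hlam, hlim, hne⟩
    exact ⟨a, p, q, ⟨hp, hq, hmin, lam, g, hlam, g0, gd, ge⟩, hlim, hne⟩
  have hcrit : ∀ z ∈ Crt x₀, Attd (sp x₀) z ∨ (∃ a, ParB (sp x₀) z a) ∨ PreP (sp x₀) z ∨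
      PreN (sp x₀) z := by
    intro z hz
    rcases hc z (crt_notinj hd x₀ hnd z hz) with h3 | h3 | ⟨m, p, lam, g, hp, hl, g0, gd, ge⟩ |
      ⟨m, p, q, lam, g, hp, hq, hmin, g0, gd, ge, hlam⟩
    · exact Or.inl h3
    · exact Or.inr (Or.inl (hpb z h3))
    · exact Or.inr (Or.inr (Or.inl ⟨m, p, hp, lam, g, hl, g0, gd, ge⟩))
    · exact Or.inr (Or.inr (Or.inr ⟨m, p, q, hp, hq, hmin, lam, g, hlam, g0, gd, ge⟩))
  have hgood : ∃ z, Attd (sp x₀) z ∨ ∃ a, ParB (sp x₀) z a := by
    obtain ⟨z, hz | hz⟩ := hb
    · exact ⟨z, Or.inl hz⟩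
    · exact ⟨z, Or.inr (hpb z hz)⟩
  obtain ⟨S, hSc, hS0, hS⟩ := mainR5 hd x₀ hnd hcrit hgood
  refine ⟨S, hSc, hS0, fun ι _ J hJ => ?_⟩
  obtain ⟨g1, -⟩ := hS ι J hJ
  refine tendsto_of_tendsto_of_tendsto_of_le_of_le tendsto_const_nhds g1
    (fun _ => zero_le) (fun r => ENNReal.div_le_div_right (measure_mono ?_) _)
  rintro v ⟨h3, h4⟩
  refine ⟨h3, fun h5 => h4 ?_⟩
  have e : ∀ i : Fin 2, poly (x₀ + J v) i = pol x₀ i + poly (J v) i := by
    intro i
    unfold poly pol
    rw [← Finset.sum_add_distrib]
    refine Finset.sum_congr rfl fun j _ => ?_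
    rw [Pi.add_apply, map_add]
  have h6 := hHy _ h5
  rw [e, e, hx0, hx1] at h6
  exact h6

end Pool.Agent.Results.MP_8f2e1c_an.GeometricallyFiniteMaps
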