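import Mathlib
import Pool.Agent.Run7.h725.C9Poly

/-!
# Full density of hyperbolic maps at the degenerate maps over a hyperbolic map

Let `f = P / Q` be a hyperbolic rational map of degree `d ≥ 2` and `H ≠ 0` a binary form of degree
`m ≥ 1`, given by a polynomial `H` of degree at most `m` (the form has the zero `∞` of the order
`m - deg H`). The pair `(H P, H Q)` is a boundary point of the space of rational maps of degree
`m + d`; the zeros of `H` are its holes. Assume that a hole is mapped to a hole by an iterate
`f^n`, `n ≥ 1`, only if it is a repelling periodic point mapped to itself, and that the holes in the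
Julia set of `f` (i.e. those which are not attracted by a sink) are simple zeros of `H`. Then
`(H P, H Q)` is a point of full density of the hyperbolic maps of degree `m + d`, on almost every
complex line through it and therefore in the space. For `m = 1` the hole may be any point of the
sphere which is not an attracting periodic point.

For a hole `a` in the Julia set a nearby map `g` of degree `m + d` maps a small disc near `a` over
the whole sphere. It has two critical points near `a`, whose values lie near the point `f a` of the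
Julia set of `f`, at a distance comparable to the square root `s` of the size of the perturbation. If
the orbit of `f a` does not meet the holes, then the point of the expanding set of `g` which
corresponds to `f a` moves by the size `s ^ 2` of the perturbation, and the expansion of `g` enlarges
the difference, so that the orbits of these critical values reach, after finitely many steps, a
position at a fixed distance from the orbit of `f a` that depends on the perturbation in a way which
is equidistributed up to bounded factors. This is combined with an estimate of the area of the points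
whose orbits come close to the holes, with the zero area of the set of the points that are not
attracted, and with Fubini's theorem in the space of coefficients.

If the hole `a` is a repelling periodic point with the multiplier `μ`, then the orbits of the two
critical values return to `a` and stay for a long time at distances comparable to `s`, where the
return map is, after a change of scale, close to `t ↦ μ (t + 1 / t)`. The orbits of its critical
points `1` and `-1` tend to infinity by an argument of Fatou, so that the orbits of the critical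
values leave this scale; then the perturbation is small relative to the distance to `a` and the
argument above applies.
-/

set_option autoImplicit false

open MeasureTheory Filter Metric Topology Polynomial
open scoped OnePoint

namespace Pool.Agent.Results.MP_8f2e1c_an.JuliaHoles

/-- `f` is the rational map `P / Q` on the Riemann sphere. -/
def IsRationalMap (P Q : ℂ[X]) (f : OnePoint ℂ → OnePoint ℂ) : Prop :=
  Continuous f ∧ ∀ z : ℂ, Q.eval z ≠ 0 →
    f (OnePoint.some z) = OnePoint.some (P.eval z / Q.eval z)

/-- `a` is a point of an attracting cycle of `f` whose period divides `n`: `f^n` fixes `a` and the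
iterates of `f^n` converge to `a` uniformly on a neighbourhood of `a`. -/
def IsSink (f : OnePoint ℂ → OnePoint ℂ) (n : ℕ) (a : OnePoint ℂ) : Prop :=
  0 < n ∧ f^[n] a = a ∧
    ∃ U ∈ nhds a, ∀ V ∈ nhds a, ∀ᶠ k : ℕ in Filter.atTop, ∀ w ∈ U, f^[n * k] w ∈ V

/-- `z` is in the basin of an attracting cycle of `f`. -/
def Attracted (f : OnePoint ℂ → OnePoint ℂ) (z : OnePoint ℂ) : Prop :=
  ∃ (n : ℕ) (a : OnePoint ℂ), IsSink f n a ∧
    Filter.Tendsto (fun k : ℕ => f^[n * k] z) Filter.atTop (nhds a)

/-- `P / Q` is a rational map of degree `d` and it is hyperbolic: all critical points are in basins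
of attracting cycles. -/
def Hyperbolic (d : ℕ) (P Q : ℂ[X]) : Prop :=
  IsCoprime P Q ∧ max P.natDegree Q.natDegree = d ∧ ∃ f : OnePoint ℂ → OnePoint ℂ,
    IsRationalMap P Q f ∧ ∀ c : OnePoint ℂ, (¬ ∃ U ∈ nhds c, Set.InjOn f U) → Attracted f c

/-- The polynomial with the given coefficients (of the degrees `0, …, d`): the numerator for `i = 0`,
the denominator for `i = 1`. -/
noncomputable def poly {d : ℕ} (V : Fin 2 × Fin (d + 1) → ℂ) (i : Fin 2) : ℂ[X] :=
  ∑ j : Fin (d + 1), monomial (j : ℕ) (V (i, j))

/-- The vectors of coefficients (of the degrees `0, …, d`) within `r` of those of `P` and `Q`. -/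
def box (d : ℕ) (P Q : ℂ[X]) (r : ℝ) : Set (Fin 2 × Fin (d + 1) → ℂ) :=
  {a | ∀ j : Fin (d + 1), ‖a (0, j) - P.coeff j‖ ≤ r ∧ ‖a (1, j) - Q.coeff j‖ ≤ r}

/-- The order of vanishing at the point `a` of the sphere of the polynomial `H`, viewed as a form of
degree `m`. The zero at infinity has the order `m - deg H`. -/
noncomputable def order (m : ℕ) (H : ℂ[X]) (a : OnePoint ℂ) : ℕ :=
  match a with
  | none => m - H.natDegree
  | some z => H.rootMultiplicity z

/-- Let `f = P / Q` be a hyperbolic rational map of degree `d ≥ 2` and `H ≠ 0` a binary form of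
degree `m ≥ 1` such that, if a zero `a` of `H` is mapped to a zero `b` of `H` by `f^n` for some
`n ≥ 1`, then `a = b` and `a` is not attracted by a sink of `f`, and such that the zeros of `H` that
are not attracted by sinks of `f` are simple. Then `(H P, H Q)` is a point of full density of the
hyperbolic maps of degree `m + d`:

(1) on almost every complex line through it: for almost every pair `V` of polynomials of degree at
most `m + d`, the proportion by area of the complex numbers `l` with `|l| ≤ r` for which
`(H P + l V₀) / (H Q + l V₁)` is not a hyperbolic rational map of degree `m + d` tends to `0` as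
`r → 0`; and therefore

(2) in the space: the proportion by volume of the vectors of coefficients in the box of radius `r`
about those of `(H P, H Q)` that do not give a hyperbolic rational map of degree `m + d` tends to `0`
as `r → 0`. -/
theorem result (d m : ℕ) (hd : 2 ≤ d) (hm : 1 ≤ m) (P Q H : ℂ[X]) (hPQ : IsCoprime P Q)
    (hdeg : max P.natDegree Q.natDegree = d) (hH : H ≠ 0) (hHm : H.natDegree ≤ m)
    (f : OnePoint ℂ → OnePoint ℂ) (hf : IsRationalMap P Q f)
    (hc : ∀ c : OnePoint ℂ, (¬ ∃ U ∈ nhds c, Set.InjOn f U) → Attracted f c)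
    (h1 : ∀ a b : OnePoint ℂ, 0 < order m H a → 0 < order m H b → ∀ n : ℕ, 0 < n → f^[n] a = b →
      a = b ∧ ¬ Attracted f a)
    (h2 : ∀ a : OnePoint ℂ, ¬ Attracted f a → order m H a ≤ 1) :
    (∀ᵐ V : Fin 2 × Fin (m + d + 1) → ℂ, Tendsto (fun r : ℝ => volume {l : ℂ | ‖l‖ ≤ r ∧
        ¬ Hyperbolic (m + d) (H * P + C l * poly V 0) (H * Q + C l * poly V 1)} /
      volume (closedBall (0 : ℂ) r)) (𝓝[>] 0) (𝓝 0)) ∧
    Tendsto (fun r : ℝ => volume {a : Fin 2 × Fin (m + d + 1) → ℂ |
        a ∈ box (m + d) (H * P) (H * Q) r ∧ ¬ Hyperbolic (m + d) (poly a 0) (poly a 1)} /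
      volume (box (m + d) (H * P) (H * Q) r)) (𝓝[>] 0) (𝓝 0) := by
  classical
  have hd1 : 1 ≤ d := by omega
  have hD1 : 1 ≤ m + d := by omega
  have hD : 2 ≤ m + d := by omega
  obtain ⟨-, p2⟩ := Pool.Agent.H790R3.RB.PQ Pool.Agent.H790R3.RB.SP d hd1
  obtain ⟨y, hnd, hy0, hy1, hfe⟩ := p2 P Q hPQ hdeg
  have hfx : f = Pool.Agent.H790R3.RB.sp y := hfe f hf.1 hf.2
  subst hfx
  obtain ⟨s, hs⟩ := Run7.h725.exists_enum m (Run7.h725.zs m H) (Run7.h725.zs_card hHm)
  have hord : ∀ a : OnePoint ℂ, order m H a = Run7.h725.ordH m H a := fun a => by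
    cases a <;> rfl
  have hpos : ∀ j, 0 < order m H (s j) := by
    intro j
    rw [hord, ← Run7.h725.zs_count, Multiset.count_pos, ← hs]
    exact Multiset.mem_map_of_mem s (Finset.mem_univ j)
  have hcr : ∀ z ∈ Run7.h904.RF.Crt y, Pool.Agent.H790R3.RB.Attd (Pool.Agent.H790R3.RB.sp y) z :=
    fun z hz => hc z (Run7.h904.RF.crt_notinj hd y hnd z hz)
  have hself := fun i j n hn he => (h1 _ _ (hpos i) (hpos j) n hn he).symm
  have hsmp : ∀ i j, s i = s j →
      ¬ Pool.Agent.H790R3.RB.Attd (Pool.Agent.H790R3.RB.sp y) (s i) → i = j :=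
    fun i j hij hA => Run7.h725.enum_inj hs hij (by
      rw [Run7.h725.zs_count, ← hord]
      exact h2 _ hA)
  have hc0 : ((-1) ^ (m - H.natDegree) * H.leadingCoeff) ≠ 0 :=
    mul_ne_zero (pow_ne_zero _ (by norm_num)) (leadingCoeff_ne_zero.2 hH)
  have hx₀ := Run7.h725.hF_mkv hH hHm y hy0 hy1 hs
  have m1 := Run7.h725.main_ae hd (by omega) y hnd hcr s hself hsmp _ hc0
    (Pool.Agent.R239.Fat.mkv (m + d) (H * P) (H * Q)) hx₀
  have m2 := Run7.h725.main_deg hd _ m1
  obtain ⟨h3, -⟩ := Pool.Agent.H790R3.RB.PQ Pool.Agent.H790R3.RB.SP (m + d) hD1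
  have hHy : ∀ a : Fin 2 × Fin (m + d + 1) → ℂ, Run7.h904.RF.HyR (d := m + d) a →
      Hyperbolic (m + d) (poly a 0) (poly a 1) := by
    rintro a ⟨ha1, ha2⟩
    obtain ⟨g1, g2, -, -, g5⟩ := h3 a ha1
    exact ⟨g1, g2, _, ⟨(Pool.Agent.H790R3.RB.SP (m + d) a hD1 ha1).1, g5⟩, fun c hcc =>
      ha2 c (Run7.h904.RF.crt_of_notinj hD a ha1 c hcc)⟩
  have hdP : P.natDegree ≤ d := by rw [← hdeg]; exact le_max_left _ _
  have hdQ : Q.natDegree ≤ d := by rw [← hdeg]; exact le_max_right _ _
  obtain ⟨k0, k1⟩ := Pool.Agent.R239.Fat.pol_mkv (D := m + d) (P := H * P) (Q := H * Q)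
    (natDegree_mul_le.trans (by omega)) (natDegree_mul_le.trans (by omega))
  have hHl : ∀ (V : Fin 2 × Fin (m + d + 1) → ℂ) (l : ℂ),
      Run7.h904.RF.HyR (d := m + d) (Pool.Agent.R239.Fat.mkv (m + d) (H * P) (H * Q) + l • V) →
      Hyperbolic (m + d) (H * P + C l * poly V 0) (H * Q + C l * poly V 1) := by
    intro V l h
    have h4 := hHy _ h
    have e0 : poly (Pool.Agent.R239.Fat.mkv (m + d) (H * P) (H * Q) + l • V) 0 =
        H * P + C l * poly V 0 := by
      refine (Run7.h725.pol_lin (D := m + d) _ V l 0).trans ?_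
      rw [k0]
      rfl
    have e1 : poly (Pool.Agent.R239.Fat.mkv (m + d) (H * P) (H * Q) + l • V) 1 =
        H * Q + C l * poly V 1 := by
      refine (Run7.h725.pol_lin (D := m + d) _ V l 1).trans ?_
      rw [k1]
      rfl
    rwa [e0, e1] at h4
  refine ⟨?_, ?_⟩
  · filter_upwards [m1] with V hV
    rw [ENNReal.tendsto_nhds_zero]
    intro e he
    obtain ⟨e', he', he2⟩ : ∃ e' : ℝ, 0 < e' ∧ ENNReal.ofReal e' ≤ e := by
      by_cases htop : e = ⊤
      · exact ⟨1, one_pos, by rw [htop]; exact le_top⟩
      · exact ⟨e.toReal, ENNReal.toReal_pos he.ne' htop, (ENNReal.ofReal_toReal htop).le⟩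
    obtain ⟨R₀, hR₀, h4⟩ := hV (e' / 4) (by positivity)
    have h5 : ∀ᶠ r : ℝ in 𝓝[>] 0, 0 < r ∧ 2 * r ≤ R₀ := by
      refine Eventually.and self_mem_nhdsWithin ?_
      have h6 : Tendsto (fun s : ℝ => 2 * s) (𝓝 0) (𝓝 (2 * 0)) :=
        (continuous_const.mul continuous_id).tendsto 0
      rw [mul_zero] at h6
      exact (h6.mono_left nhdsWithin_le_nhds).eventually (ge_mem_nhds hR₀)
    filter_upwards [h5] with r hr
    have h6 := h4 (2 * r) (by linarith [hr.1]) hr.2
    have h7 : volume {l : ℂ | ‖l‖ ≤ r ∧
        ¬ Hyperbolic (m + d) (H * P + C l * poly V 0) (H * Q + C l * poly V 1)} ≤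
        ENNReal.ofReal (e' * r ^ 2) := by
      refine (measure_mono ?_).trans (h6.trans (le_of_eq ?_))
      · rintro l ⟨hl1, hl2⟩
        refine ⟨mem_ball_zero_iff.2 (by linarith [hr.1]), fun h8 => hl2 (hHl V l h8)⟩
      · congr 1
        ring
    have hvol : volume (closedBall (0 : ℂ) r) = ENNReal.ofReal (r ^ 2 * Real.pi) := by
      rw [Complex.volume_closedBall, ← ENNReal.ofReal_pow hr.1.le]
      have e : (NNReal.pi : ENNReal) = ENNReal.ofReal Real.pi := by
        rw [← NNReal.coe_real_pi, ENNReal.ofReal_coe_nnreal]
      rw [e, ← ENNReal.ofReal_mul (by positivity)]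
    refine le_trans ?_ he2
    rw [hvol, ENNReal.div_le_iff (by
        have := hr.1
        have := Real.pi_pos
        exact (ENNReal.ofReal_pos.2 (by positivity)).ne') ENNReal.ofReal_ne_top,
      ← ENNReal.ofReal_mul he'.le]
    refine h7.trans (ENNReal.ofReal_le_ofReal ?_)
    have h8 : (1 : ℝ) ≤ Real.pi := by linarith [Real.pi_gt_three]
    have h9 : r ^ 2 ≤ r ^ 2 * Real.pi := le_mul_of_one_le_right (by positivity) h8
    exact mul_le_mul_of_nonneg_left h9 he'.le
  · have hb : ∀ r : ℝ, box (m + d) (H * P) (H * Q) r =
        {a : Fin 2 × Fin (m + d + 1) → ℂ |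
          ∀ i, ‖a i - Pool.Agent.R239.Fat.mkv (m + d) (H * P) (H * Q) i‖ ≤ r} := by
      intro r
      ext a
      constructor
      · rintro h ⟨i, j⟩
        have := h j
        fin_cases i
        · exact this.1
        · exact this.2
      · intro h j
        exact ⟨h (0, j), h (1, j)⟩
    refine tendsto_of_tendsto_of_tendsto_of_le_of_le tendsto_const_nhds m2
      (fun _ => zero_le) (fun r => ?_)
    simp only [hb]
    refine ENNReal.div_le_div_right (measure_mono ?_) _
    rintro a ⟨h4, h5⟩
    exact ⟨h4, fun h6 => h5 (hHy a h6)⟩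

end Pool.Agent.Results.MP_8f2e1c_an.JuliaHoles
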