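import Mathlib
import Pool.Agent.Run7.h979.SY.Main

set_option autoImplicit false

namespace Pool.Agent.Results.MP_8f2e1c_an.SymmetricFamilies

/-- `P / Q` is in lowest terms and every critical point (point of the Riemann sphere where the map
is not locally injective) has an orbit converging to an attracting periodic cycle. This is word
for word the condition of the frozen statement `S05373`. -/
def Hyperbolic (P Q : Polynomial ℂ) : Prop :=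
  IsCoprime P Q ∧ ∃ f : OnePoint ℂ → OnePoint ℂ, Continuous f ∧
    (∀ z : ℂ, Q.eval z ≠ 0 →
      f (OnePoint.some z) = OnePoint.some (P.eval z / Q.eval z)) ∧
    ∀ c : OnePoint ℂ, (¬ ∃ U ∈ nhds c, Set.InjOn f U) →
      ∃ z : OnePoint ℂ, ∃ n : ℕ, 0 < n ∧ f^[n] z = z ∧
        (∃ U ∈ nhds z, ∀ w ∈ U,
          Filter.Tendsto (fun k : ℕ => f^[n * k] w) Filter.atTop (nhds z)) ∧
        Filter.Tendsto (fun k : ℕ => f^[n * k] c) Filter.atTop (nhds z)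

/-- The class of quotients `R = P / Q`: in lowest terms, all coefficients of modulus at most `M`,
`P(0)` and `Q(0)` of modulus at least `1 / M`, and `P`, `Q` of different degrees, the larger of
which is `D` and has its leading coefficient of modulus at least `1 / M`. So `R(0)` is neither `0`
nor `∞`, and `R(∞)` is `0` or `∞`. -/
def Class (D : ℕ) (M : ℝ) (P Q : Polynomial ℂ) : Prop :=
  IsCoprime P Q ∧ (∀ i, ‖P.coeff i‖ ≤ M) ∧ (∀ i, ‖Q.coeff i‖ ≤ M) ∧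
    M⁻¹ ≤ ‖P.coeff 0‖ ∧ M⁻¹ ≤ ‖Q.coeff 0‖ ∧
    ((P.natDegree = D ∧ Q.natDegree < D ∧ M⁻¹ ≤ ‖P.coeff D‖) ∨
      (Q.natDegree = D ∧ P.natDegree < D ∧ M⁻¹ ≤ ‖Q.coeff D‖))

/-- The numerator `s z^a P(z^n)` of the map `s z^(a-b) R(z^n)`. -/
noncomputable def numer (a n : ℕ) (s : ℂ) (P : Polynomial ℂ) : Polynomial ℂ :=
  Polynomial.C s * Polynomial.X ^ a * Polynomial.expand ℂ n P

/-- The denominator `z^b Q(z^n)` of the map `s z^(a-b) R(z^n)`. -/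
noncomputable def denom (b n : ℕ) (Q : Polynomial ℂ) : Polynomial ℂ :=
  Polynomial.X ^ b * Polynomial.expand ℂ n Q

theorem result :
    ∀ D : ℕ, 1 ≤ D → ∀ M : ℝ, 1 ≤ M → ∃ C : ℝ, 0 < C ∧ ∃ n₀ : ℕ,
      ∀ n : ℕ, n₀ ≤ n → ∀ a b : ℕ, (a = 0 ∨ b = 0) → 2 ≤ a + b → 2 * (a + b) ≤ n →
      ∀ P Q : Polynomial ℂ, Class D M P Q →
        (∃ E : Set ℝ, MeasureTheory.volume E ≤ ENNReal.ofReal (C * (Real.log n / n)) ∧
          ∀ s : ℂ, M⁻¹ ≤ ‖s‖ → ‖s‖ ≤ M → ‖s‖ ∉ E → Hyperbolic (numer a n s P) (denom b n Q)) ∧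
        ∃ s : ℝ, 1 ≤ s ∧ s ≤ 1 + C * (Real.log n / n) ∧
          Hyperbolic (numer a n (s : ℂ) P) (denom b n Q) := by
  intro D hD M hM
  obtain ⟨C, hC, n₀, h⟩ := Run7.h979.SY.final D hD M hM
  refine ⟨C, hC, n₀, ?_⟩
  intro n hn a b hab h2 hna P Q hcl
  obtain ⟨h1, -, h3⟩ := h n hn a b hab h2 hna P Q
    ⟨hcl.1, hcl.2.1, hcl.2.2.1, hcl.2.2.2.1, hcl.2.2.2.2.1, hcl.2.2.2.2.2⟩
  exact ⟨h1, h3⟩

end Pool.Agent.Results.MP_8f2e1c_an.SymmetricFamilies
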